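import Pool.Agent.helper67.TSC.Spec

/-!
# Project ts: (MP_ebc808_nt), module MNS

The inequality with parameters.
-/

set_option autoImplicit false

open Finset

noncomputable section

namespace Pool.Agent.TSC

open Pool.Agent.EP

theorem MNS_sq (h : ℕ) : (h + 1) ^ 2 ≤ 4 * 2 ^ h := by
  induction h with
  | zero => norm_num
  | succ n ih =>
    rcases n with _ | _ | n
    · norm_num
    · norm_num
    · have h1 : (n + 1 + 1 + 1 + 1) ^ 2 ≤ 2 * (n + 1 + 1 + 1) ^ 2 := by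
        have h0 : 2 * (n + 1 + 1 + 1) ^ 2 = (n + 1 + 1 + 1 + 1) ^ 2 + (n * n + 4 * n + 2) := by ring
        rw [h0]
        exact Nat.le_add_right _ _
      calc (n + 1 + 1 + 1 + 1) ^ 2 ≤ 2 * (n + 1 + 1 + 1) ^ 2 := h1
        _ ≤ 2 * (4 * 2 ^ (n + 1 + 1)) := Nat.mul_le_mul_left 2 ih
        _ = 4 * 2 ^ (n + 1 + 1 + 1) := by ring

theorem MNS_pf (m : ℕ) (hm : 0 < m) : #m.primeFactors ≤ Nat.log 2 m := by
  have h1 : 2 ^ #m.primeFactors ≤ ∏ p ∈ m.primeFactors, p := by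
    rw [← Finset.prod_const]
    exact Finset.prod_le_prod' (fun p hp => (Nat.prime_of_mem_primeFactors hp).two_le)
  have h2 : ∏ p ∈ m.primeFactors, p ≤ m := Nat.le_of_dvd hm (Nat.prod_primeFactors_dvd m)
  exact Nat.le_log_of_pow_le (by norm_num) (h1.trans h2)

theorem MNS_pf2 (m X : ℕ) (hm : 0 < m) (hX : m ≤ 32 * X) :
    #m.primeFactors ≤ Nat.log 2 X + 5 := by
  refine (MNS_pf m hm).trans ?_
  have h1 : X < 2 ^ (Nat.log 2 X + 1) := Nat.lt_pow_succ_log_self (by norm_num) X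
  have h2 : m < 2 ^ (Nat.log 2 X + 6) := by
    have h3 : (2 : ℕ) ^ (Nat.log 2 X + 6) = 32 * 2 ^ (Nat.log 2 X + 1) := by ring
    rw [h3]
    omega
  have h4 := Nat.log_lt_of_lt_pow (b := 2) hm.ne' h2
  omega

theorem MNS_D (X : ℕ) (L : ℝ) (hL : Real.log X = L) (h4 : 4 ≤ L) :
    ((Nat.log 2 X + 5 : ℕ) : ℝ) ≤ L ^ 2 := by
  have hX : X ≠ 0 := by
    rintro rfl
    simp at hL
    linarith
  have h1 : (2 : ℝ) ^ (Nat.log 2 X) ≤ X := by exact_mod_cast Nat.pow_log_le_self 2 hX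
  have h2 : (Nat.log 2 X : ℝ) * Real.log 2 ≤ L := by
    rw [← hL, ← Real.log_pow]
    exact Real.log_le_log (by positivity) h1
  have h3 := Real.log_two_gt_d9
  have h5 : (0 : ℝ) ≤ (Nat.log 2 X : ℝ) := Nat.cast_nonneg _
  push_cast
  nlinarith

/-- First root estimate. -/
theorem MNS_r1 (N : ℕ) (hN : 1 ≤ N) : ((Nat.sqrt (8 * N + 1) + 1 : ℕ) : ℝ) ≤ 4 * √(N : ℝ) := by
  have h1 : ((Nat.sqrt (8 * N + 1) : ℕ) : ℝ) ≤ √((8 * N + 1 : ℕ) : ℝ) := Real.nat_sqrt_le_real_sqrt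
  have hN1 : (1 : ℝ) ≤ N := by exact_mod_cast hN
  have h2 : √((8 * N + 1 : ℕ) : ℝ) ≤ 3 * √(N : ℝ) := by
    rw [show (3 : ℝ) * √(N : ℝ) = √(9 * N) by
      rw [Real.sqrt_mul (by norm_num), show (9 : ℝ) = 3 ^ 2 by norm_num, Real.sqrt_sq (by norm_num)]]
    apply Real.sqrt_le_sqrt
    push_cast
    linarith
  have h3 : 1 ≤ √(N : ℝ) := Real.one_le_sqrt.2 hN1
  push_cast
  push_cast at h1 h2
  linarith

theorem MNS_r2 (M : ℕ) (hM : 1 ≤ M) : ((Nat.sqrt (2 * M) + 1 : ℕ) : ℝ) ≤ 3 * √(M : ℝ) := by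
  have h1 : ((Nat.sqrt (2 * M) : ℕ) : ℝ) ≤ √((2 * M : ℕ) : ℝ) := Real.nat_sqrt_le_real_sqrt
  have hN1 : (1 : ℝ) ≤ M := by exact_mod_cast hM
  have h2 : √((2 * M : ℕ) : ℝ) ≤ 2 * √(M : ℝ) := by
    rw [show (2 : ℝ) * √(M : ℝ) = √(4 * M) by
      rw [Real.sqrt_mul (by norm_num), show (4 : ℝ) = 2 ^ 2 by norm_num, Real.sqrt_sq (by norm_num)]]
    apply Real.sqrt_le_sqrt
    push_cast
    linarith
  have h3 : 1 ≤ √(M : ℝ) := Real.one_le_sqrt.2 hN1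
  push_cast
  push_cast at h1 h2
  linarith

theorem MNS_y (N : ℕ) (hN : 20 ≤ √(N : ℝ)) : √(N : ℝ) ≤ 5 * ((Nat.sqrt N / 4 : ℕ) : ℝ) := by
  have h1 : √(N : ℝ) < Nat.sqrt N + 1 := Real.real_sqrt_lt_nat_sqrt_succ
  have h2 : Nat.sqrt N ≤ 4 * (Nat.sqrt N / 4) + 3 := by omega
  have h3 : ((Nat.sqrt N : ℕ) : ℝ) ≤ 4 * ((Nat.sqrt N / 4 : ℕ) : ℝ) + 3 := by exact_mod_cast h2
  linarith

theorem MNS_Ny (N : ℕ) (hN : 20 ≤ √(N : ℝ)) :
    ((N / (Nat.sqrt N / 4) + 1 : ℕ) : ℝ) ≤ 6 * √(N : ℝ) := by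
  have h1 := MNS_y N hN
  have h2 : ((N / (Nat.sqrt N / 4) : ℕ) : ℝ) ≤ (N : ℝ) / ((Nat.sqrt N / 4 : ℕ) : ℝ) := Nat.cast_div_le
  have h3 : (N : ℝ) / ((Nat.sqrt N / 4 : ℕ) : ℝ) ≤ 5 * √(N : ℝ) := by
    have h4 : (0 : ℝ) < ((Nat.sqrt N / 4 : ℕ) : ℝ) := by linarith
    rw [div_le_iff₀ h4]
    have h5 : (N : ℝ) = √(N : ℝ) * √(N : ℝ) := (Real.mul_self_sqrt (Nat.cast_nonneg N)).symm
    nlinarith
  push_cast
  linarith

/-- The exceptional terms. -/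
theorem MNS_exc (K a N : ℕ) (hK : 1 ≤ K) (hN : 20 ≤ √(N : ℝ)) :
    ((Nat.sqrt (8 * N + 1) + 1 + 2 * (Nat.sqrt (2 * K * 2 ^ a) + 1) * (N / (Nat.sqrt N / 4) + 1) : ℕ) : ℝ) ≤
      40 * √((K * 2 ^ a : ℕ) : ℝ) * √(N : ℝ) := by
  have hN1 : 1 ≤ N := by
    rcases Nat.eq_zero_or_pos N with h | h
    · subst h; simp at hN; linarith
    · exact h
  have hM1 : 1 ≤ K * 2 ^ a := Nat.one_le_iff_ne_zero.2 (by positivity)
  have h1 := MNS_r1 N hN1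
  have h2 := MNS_r2 (K * 2 ^ a) hM1
  have h3 := MNS_Ny N hN
  rw [show 2 * (K * 2 ^ a) = 2 * K * 2 ^ a by ring] at h2
  have h4 : 1 ≤ √((K * 2 ^ a : ℕ) : ℝ) := Real.one_le_sqrt.2 (by exact_mod_cast hM1)
  set s : ℝ := √(N : ℝ)
  set t : ℝ := √((K * 2 ^ a : ℕ) : ℝ)
  have h5 : ((Nat.sqrt (8 * N + 1) + 1 + 2 * (Nat.sqrt (2 * K * 2 ^ a) + 1) *
      (N / (Nat.sqrt N / 4) + 1) : ℕ) : ℝ) = ((Nat.sqrt (8 * N + 1) + 1 : ℕ) : ℝ) +
      2 * (((Nat.sqrt (2 * K * 2 ^ a) + 1 : ℕ) : ℝ) * ((N / (Nat.sqrt N / 4) + 1 : ℕ) : ℝ)) := by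
    push_cast; ring
  rw [h5]
  have h6 : ((Nat.sqrt (2 * K * 2 ^ a) + 1 : ℕ) : ℝ) * ((N / (Nat.sqrt N / 4) + 1 : ℕ) : ℝ) ≤
      (3 * t) * (6 * s) := mul_le_mul h2 h3 (Nat.cast_nonneg _) (by linarith)
  nlinarith

/-- The second sieve factor. -/
theorem MNS_t2 (K a b : ℕ) (hb : b ≤ a) (ha : 1 ≤ a) (hK : 2 ^ a ≤ K) :
    ((Nat.sqrt (2 * K * 2 ^ a) / 2 ^ (a - 1) + 1 : ℕ) : ℝ) ≤ 5 * √((K : ℝ) / 2 ^ b) := by
  have hKr : (2 : ℝ) ^ a ≤ K := by exact_mod_cast hK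
  have h2a : (0 : ℝ) < 2 ^ a := by positivity
  have h1 : ((Nat.sqrt (2 * K * 2 ^ a) / 2 ^ (a - 1) : ℕ) : ℝ) ≤
      ((Nat.sqrt (2 * K * 2 ^ a) : ℕ) : ℝ) / ((2 ^ (a - 1) : ℕ) : ℝ) := Nat.cast_div_le
  have h2 : ((Nat.sqrt (2 * K * 2 ^ a) : ℕ) : ℝ) ≤ √((2 * K * 2 ^ a : ℕ) : ℝ) :=
    Real.nat_sqrt_le_real_sqrt
  have h3 : √((2 * K * 2 ^ a : ℕ) : ℝ) ≤ 2 * 2 ^ a * √((K : ℝ) / 2 ^ a) := by
    have h4 : 2 * 2 ^ a * √((K : ℝ) / 2 ^ a) = √((2 * 2 ^ a) ^ 2 * ((K : ℝ) / 2 ^ a)) := by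
      rw [Real.sqrt_mul (by positivity), Real.sqrt_sq (by positivity)]
    rw [h4]
    apply Real.sqrt_le_sqrt
    have h5 : (2 * 2 ^ a) ^ 2 * ((K : ℝ) / 2 ^ a) = 4 * K * 2 ^ a := by
      field_simp
      ring
    rw [h5]
    push_cast
    have h6 : (0 : ℝ) ≤ K * 2 ^ a := by positivity
    nlinarith
  have h7 : ((2 ^ (a - 1) : ℕ) : ℝ) * 2 = 2 ^ a := by
    push_cast
    rw [← pow_succ, Nat.sub_add_cancel ha]
  have h8 : (0 : ℝ) < ((2 ^ (a - 1) : ℕ) : ℝ) := by positivity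
  have h9 : ((Nat.sqrt (2 * K * 2 ^ a) : ℕ) : ℝ) / ((2 ^ (a - 1) : ℕ) : ℝ) ≤ 4 * √((K : ℝ) / 2 ^ a) := by
    rw [div_le_iff₀ h8]
    have h10 : 0 ≤ √((K : ℝ) / 2 ^ a) := Real.sqrt_nonneg _
    calc ((Nat.sqrt (2 * K * 2 ^ a) : ℕ) : ℝ) ≤ 2 * 2 ^ a * √((K : ℝ) / 2 ^ a) := h2.trans h3
      _ = 4 * √((K : ℝ) / 2 ^ a) * ((2 ^ (a - 1) : ℕ) : ℝ) := by rw [← h7]; ring
  have h11 : 1 ≤ √((K : ℝ) / 2 ^ a) := by
    apply Real.one_le_sqrt.2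
    rw [le_div_iff₀ h2a]
    linarith
  have h12 : √((K : ℝ) / 2 ^ a) ≤ √((K : ℝ) / 2 ^ b) := by
    apply Real.sqrt_le_sqrt
    apply div_le_div_of_nonneg_left (Nat.cast_nonneg K) (by positivity)
    exact pow_le_pow_right₀ (by norm_num) hb
  push_cast
  push_cast at h1 h9
  linarith


theorem MNS_le2 (a : ℕ) (h : (8 : ℝ) ≤ 2 ^ a) : 3 ≤ a := by
  by_contra hc
  have h1 : a ≤ 2 := by omega
  have h2 : (2 : ℝ) ^ a ≤ 2 ^ 2 := pow_le_pow_right₀ (by norm_num) h1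
  linarith [show (2 : ℝ) ^ 2 = 4 by norm_num]

/-- The choice of the exponent and of the set of multipliers. -/
theorem MNS_choose (hPMC : PMC_stmt) (hGDK : GDK_stmt) : ∃ L₀ : ℝ, ∀ (L : ℝ) (K b h e f : ℕ),
    L₀ ≤ L → e < 2 → f < 2 → ¬ (e = 1 ∧ f = 1) → L ≤ (2 : ℝ) ^ b → L ^ 2 ≤ (2 : ℝ) ^ h →
    (2 : ℝ) ^ h ≤ L ^ 3 → 4 ^ h * 2 ^ b ≤ K → Real.log K ≤ L →
    ∃ (a : ℕ) (R : Finset ℕ), b ≤ a ∧ 2 ^ a ≤ 4 ^ h * 2 ^ b ∧ R ⊆ PM K ∧ (K : ℝ) ≤ L ^ 3 * #R ∧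
      (f = 0 ∨ (e = 0 ∧ f = 1 ∧ ∀ k ∈ R, #(ws (k * 2 ^ a)) % 2 = 1)) := by
  obtain ⟨c₃, K₃, hc₃, h₃⟩ := hPMC
  obtain ⟨c₂, C₂, K₂, hc₂, h₂⟩ := hGDK
  refine ⟨2 + |C₂| + K₂ + K₃ + 4 / c₂ ^ 2 + 1 / c₃, ?_⟩
  intro L K b h e f hL he hf hef hb hh1 hh2 hK hKL
  have hp1 : (0 : ℝ) ≤ |C₂| := abs_nonneg _
  have hp2 : (0 : ℝ) ≤ K₂ := Nat.cast_nonneg _
  have hp3 : (0 : ℝ) ≤ K₃ := Nat.cast_nonneg _
  have hp4 : (0 : ℝ) < 4 / c₂ ^ 2 := by positivity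
  have hp5 : (0 : ℝ) < 1 / c₃ := by positivity
  have hL2 : 2 ≤ L := by linarith
  have hKr : (4 : ℝ) ^ h * 2 ^ b ≤ K := by exact_mod_cast hK
  have h4h : (1 : ℝ) ≤ 4 ^ h := one_le_pow₀ (by norm_num)
  have h2b : (0 : ℝ) < 2 ^ b := by positivity
  have hbK : (2 : ℝ) ^ b ≤ K := by nlinarith
  have hLK : L ≤ K := hb.trans hbK
  have hlogK : 0 < Real.log K := Real.log_pos (by linarith)
  by_cases hf0 : f = 0
  · refine ⟨b, PM K, le_refl _, ?_, Subset.refl _, ?_, Or.inl hf0⟩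
    · exact Nat.le_mul_of_pos_left _ (by positivity)
    · have hK3 : K₃ ≤ K := by
        have : (K₃ : ℝ) ≤ K := by linarith
        exact_mod_cast this
      have h4 := h₃ K hK3
      rw [div_le_iff₀ hlogK] at h4
      have h5 : 1 ≤ c₃ * L := by
        have : 1 / c₃ ≤ L := by linarith
        rw [div_le_iff₀ hc₃] at this
        linarith [mul_comm c₃ L]
      have h6 : (0 : ℝ) ≤ (#(PM K) : ℝ) := Nat.cast_nonneg _
      have h7 : (#(PM K) : ℝ) * Real.log K ≤ #(PM K) * L := mul_le_mul_of_nonneg_left hKL h6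
      have h8 : c₃ * K ≤ #(PM K) * L := h4.trans h7
      have hK0 : (0 : ℝ) ≤ K := Nat.cast_nonneg _
      calc (K : ℝ) ≤ K * (c₃ * L) := le_mul_of_one_le_right hK0 h5
        _ = (c₃ * K) * L := by ring
        _ ≤ (#(PM K) * L) * L := mul_le_mul_of_nonneg_right h8 (by linarith)
        _ = L ^ 2 * #(PM K) := by ring
        _ ≤ L ^ 3 * #(PM K) := by
          apply mul_le_mul_of_nonneg_right _ h6
          exact pow_le_pow_right₀ (by linarith) (by norm_num)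
  · have hf1 : f = 1 := by omega
    have he0 : e = 0 := by omega
    have hK2 : K₂ ≤ K := by
      have : (K₂ : ℝ) ≤ K := by linarith
      exact_mod_cast this
    have hC : C₂ * Real.log K ≤ (2 : ℝ) ^ h := by
      calc C₂ * Real.log K ≤ |C₂| * Real.log K := mul_le_mul_of_nonneg_right (le_abs_self _) hlogK.le
        _ ≤ L * L := mul_le_mul (by linarith) hKL hlogK.le (by linarith)
        _ = L ^ 2 := by ring
        _ ≤ 2 ^ h := hh1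
    obtain ⟨i, hi, h4⟩ := h₂ K b h hK2 hK hC
    refine ⟨b + 2 * i, {k ∈ PM K | #(ws (k * 2 ^ (b + 2 * i))) % 2 = 1}, by omega, ?_,
      filter_subset _ _, ?_, Or.inr ⟨he0, hf1, fun k hk => (mem_filter.1 hk).2⟩⟩
    · have h5 : (2 : ℕ) ^ (b + 2 * i) = 4 ^ i * 2 ^ b := by
        rw [pow_add, pow_mul]; norm_num [mul_comm]
      rw [h5]
      exact Nat.mul_le_mul_right _ (Nat.pow_le_pow_right (by norm_num) hi)
    · set R := {k ∈ PM K | #(ws (k * 2 ^ (b + 2 * i))) % 2 = 1} with hR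
      have hden : 0 < ((h : ℝ) + 1) * Real.log K := by positivity
      rw [div_le_iff₀ hden] at h4
      have h6 : (0 : ℝ) ≤ (#R : ℝ) := Nat.cast_nonneg _
      have h7 : ((h : ℝ) + 1) ^ 2 ≤ 4 * 2 ^ h := by exact_mod_cast MNS_sq h
      have h8 : ((h : ℝ) + 1) ^ 2 ≤ (c₂ * L ^ 2) ^ 2 := by
        have h9 : 4 ≤ c₂ ^ 2 * L := by
          have : 4 / c₂ ^ 2 ≤ L := by linarith
          rw [div_le_iff₀ (by positivity)] at this
          linarith [mul_comm (c₂ ^ 2) L]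
        calc ((h : ℝ) + 1) ^ 2 ≤ 4 * 2 ^ h := h7
          _ ≤ 4 * L ^ 3 := by linarith
          _ ≤ (c₂ ^ 2 * L) * L ^ 3 := mul_le_mul_of_nonneg_right h9 (by positivity)
          _ = (c₂ * L ^ 2) ^ 2 := by ring
      have h10 : (h : ℝ) + 1 ≤ c₂ * L ^ 2 := by
        exact (pow_le_pow_iff_left₀ (by positivity) (by positivity) two_ne_zero).1 h8
      have h11 : c₂ * K ≤ c₂ * (L ^ 3 * #R) := by
        calc c₂ * K ≤ #R * (((h : ℝ) + 1) * Real.log K) := h4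
          _ ≤ #R * ((c₂ * L ^ 2) * L) := by
            apply mul_le_mul_of_nonneg_left _ h6
            exact mul_le_mul h10 hKL hlogK.le (by positivity)
          _ = c₂ * (L ^ 3 * #R) := by ring
      exact le_of_mul_le_mul_left h11 hc₂

/-- The hypothesis of `CNB3` for one multiplier. -/
theorem MNS_one (a N k e f y v : ℕ) (he : e < 2)
    (hcase : f = 0 ∨ (e = 0 ∧ f = 1 ∧ #(ws (k * 2 ^ a)) % 2 = 1))
    (h : ∀ e' < 2, (v : ℝ) ≤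
      (Set.ncard {n : ℕ | n ≤ N ∧ SpK a y k n ∧ #(rs (2 ^ a) n) % 2 = e'} : ℝ)) :
    v ≤ Set.ncard {n : ℕ | n ≤ N ∧ SpK a y k n ∧
      ((1 - f) * #(rs (2 ^ a) n) + (1 - e) * #(ws (k * 2 ^ a))) % 2 = 1} := by
  have hfin : Set.Finite {n : ℕ | n ≤ N ∧ SpK a y k n ∧
      ((1 - f) * #(rs (2 ^ a) n) + (1 - e) * #(ws (k * 2 ^ a))) % 2 = 1} :=
    (Set.finite_Iic N).subset fun n hn => hn.1
  rcases hcase with hf | ⟨he0, hf1, hk⟩
  · have h1 := h ((1 + (1 - e) * #(ws (k * 2 ^ a))) % 2) (Nat.mod_lt _ (by norm_num))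
    have h2 : v ≤ Set.ncard {n : ℕ | n ≤ N ∧ SpK a y k n ∧ #(rs (2 ^ a) n) % 2 =
      (1 + (1 - e) * #(ws (k * 2 ^ a))) % 2} := by exact_mod_cast h1
    refine h2.trans (Set.ncard_le_ncard ?_ hfin)
    rintro n ⟨h3, h4, h5⟩
    refine ⟨h3, h4, ?_⟩
    subst hf
    have h6 : (1 - 0) * #(rs (2 ^ a) n) = #(rs (2 ^ a) n) := by simp
    rw [h6]
    generalize (1 - e) * #(ws (k * 2 ^ a)) = q at h5 ⊢
    omega
  · have h1 := h 0 (by norm_num)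
    have h2 : v ≤ Set.ncard {n : ℕ | n ≤ N ∧ SpK a y k n ∧ #(rs (2 ^ a) n) % 2 = 0} := by
      exact_mod_cast h1
    refine h2.trans (Set.ncard_le_ncard ?_ hfin)
    rintro n ⟨h3, h4, _⟩
    refine ⟨h3, h4, ?_⟩
    subst he0 hf1
    simpa using hk

theorem MNS_mono (e A B : ℕ) (h : A ≤ B) : sN e A ≤ sN e B := by
  unfold sN
  apply card_le_card
  intro n hn
  rw [mem_filter, mem_range] at hn ⊢
  exact ⟨by omega, hn.2⟩

/-- The real inequality at the end. -/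
theorem MNS_end (L s K N q t u F E : ℝ) (c : ℕ) (hL : 100 ≤ L) (hs : 0 ≤ s) (hK : 0 ≤ K)
    (hu : 0 ≤ u) (hF : 0 ≤ F) (hE : 0 ≤ E) (hN : N = s * s) (hq : K ≤ L ^ 3 * q)
    (ht : t * L ^ (c + 10) ≤ s)
    (h : q * (N / L ^ c) ≤ q * (40 * t * s) + L ^ 2 * (3 * s) * F + 2 * (L ^ 2) ^ 2 * (5 * u) * E) :
    K * N ≤ L ^ (2 * c + 20) * (s * F) ∨ K * N ≤ L ^ (2 * c + 20) * (u * E) := by
  have hL0 : 0 < L := by linarith
  have hL1 : 1 ≤ L := by linarith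
  have hLc : 0 < L ^ c := by positivity
  have hq0 : 0 ≤ q := by
    by_contra hc
    push Not at hc
    have : L ^ 3 * q < 0 := mul_neg_of_pos_of_neg (by positivity) hc
    linarith
  have hN0 : 0 ≤ N := by rw [hN]; positivity
  have h1 : 40 * t * s ≤ (N / L ^ c) / 2 := by
    have h2 : 40 * t * L ^ c * 2 ≤ s := by
      by_cases ht0 : t ≤ 0
      · have : 40 * t * L ^ c * 2 ≤ 0 := by
          have h3 : t * L ^ c ≤ 0 := mul_nonpos_of_nonpos_of_nonneg ht0 hLc.le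
          linarith
        linarith
      · push Not at ht0
        have h3 : (80 : ℝ) ≤ L ^ 10 := by
          calc (80 : ℝ) ≤ L := by linarith
            _ ≤ L ^ 10 := le_self_pow₀ hL1 (by norm_num)
        calc 40 * t * L ^ c * 2 = (t * L ^ c) * 80 := by ring
          _ ≤ (t * L ^ c) * L ^ 10 := mul_le_mul_of_nonneg_left h3 (by positivity)
          _ = t * L ^ (c + 10) := by rw [pow_add]; ring
          _ ≤ s := ht
    rw [div_div, le_div_iff₀ (by positivity), hN]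
    nlinarith
  have h3 : q * (N / L ^ c) / 2 ≤ L ^ 2 * (3 * s) * F + 2 * (L ^ 2) ^ 2 * (5 * u) * E := by
    have h4 := mul_le_mul_of_nonneg_left h1 hq0
    linarith
  have h5 : K * N ≤ 2 * L ^ (c + 3) * (L ^ 2 * (3 * s) * F + 2 * (L ^ 2) ^ 2 * (5 * u) * E) := by
    calc K * N ≤ (L ^ 3 * q) * N := mul_le_mul_of_nonneg_right hq hN0
      _ = 2 * L ^ (c + 3) * (q * (N / L ^ c) / 2) := by rw [pow_add]; field_simp
      _ ≤ _ := mul_le_mul_of_nonneg_left h3 (by positivity)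
  have h6 : 2 * L ^ (c + 3) * (L ^ 2 * (3 * s) * F + 2 * (L ^ 2) ^ 2 * (5 * u) * E) =
      6 * L ^ (c + 5) * (s * F) + 20 * L ^ (c + 7) * (u * E) := by
    rw [pow_add, pow_add L c 5, pow_add L c 7]; ring
  rw [h6] at h5
  have hsF : 0 ≤ s * F := by positivity
  have huE : 0 ≤ u * E := by positivity
  have h7 : 12 * L ^ (c + 5) ≤ L ^ (2 * c + 20) := by
    calc 12 * L ^ (c + 5) ≤ L * L ^ (c + 5) := mul_le_mul_of_nonneg_right (by linarith) (by positivity)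
      _ = L ^ (c + 6) := by rw [← pow_succ']
      _ ≤ L ^ (2 * c + 20) := pow_le_pow_right₀ hL1 (by omega)
  have h8 : 40 * L ^ (c + 7) ≤ L ^ (2 * c + 20) := by
    calc 40 * L ^ (c + 7) ≤ L * L ^ (c + 7) := mul_le_mul_of_nonneg_right (by linarith) (by positivity)
      _ = L ^ (c + 8) := by rw [← pow_succ']
      _ ≤ L ^ (2 * c + 20) := pow_le_pow_right₀ hL1 (by omega)
  have h9 := mul_le_mul_of_nonneg_right h7 hsF
  have h10 := mul_le_mul_of_nonneg_right h8 huE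
  by_contra hcon
  push Not at hcon
  obtain ⟨hc1, hc2⟩ := hcon
  nlinarith

theorem MNS_log (B : ℝ) : ∃ X₀ : ℕ, ∀ X : ℕ, X₀ ≤ X → B ≤ Real.log X := by
  have h1 : Filter.Tendsto (fun X : ℕ => Real.log X) Filter.atTop Filter.atTop :=
    Real.tendsto_log_atTop.comp tendsto_natCast_atTop_atTop
  exact Filter.eventually_atTop.1 (h1.eventually_ge_atTop B)

theorem MNS (hLW : LW3_stmt) (hCNB : CNB3_stmt) (hPMC : PMC_stmt) (hGDK : GDK_stmt) : MNS_stmt := by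
  obtain ⟨C₁, X₁, hLW⟩ := hLW
  obtain ⟨L₀, hch⟩ := MNS_choose hPMC hGDK
  obtain ⟨X₀, hX₀⟩ := MNS_log (100 + |L₀| + X₁)
  refine ⟨2 * C₁ + 20, X₀, ?_⟩
  intro X Z b h K N e f hX he hf hef hb hh1 hh2 hK hKN hKX hKZ
  have hbig := hX₀ X hX
  obtain ⟨L, hL⟩ : ∃ L : ℝ, Real.log X = L := ⟨_, rfl⟩
  rw [hL] at hb hh1 hh2 hKN hbig ⊢
  have hp1 : (0 : ℝ) ≤ |L₀| := abs_nonneg _
  have hp2 : (0 : ℝ) ≤ X₁ := Nat.cast_nonneg _
  have hL100 : 100 ≤ L := by linarith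
  have hL0 : L₀ ≤ L := by linarith [le_abs_self L₀]
  have hLX : (X₁ : ℝ) ≤ L := by linarith
  have hL1 : 1 ≤ L := by linarith
  have hLC : L ≤ L ^ (2 * C₁ + 20) := le_self_pow₀ hL1 (by omega)
  have hLb : L ≤ (2 : ℝ) ^ b := hLC.trans hb
  have hKr : (4 : ℝ) ^ h * 2 ^ b ≤ K := by exact_mod_cast hK
  have h4h : (1 : ℝ) ≤ 4 ^ h := one_le_pow₀ (by norm_num)
  have hB : L ≤ (4 : ℝ) ^ h * 2 ^ b := by
    calc L ≤ 2 ^ b := hLb
      _ ≤ 4 ^ h * 2 ^ b := le_mul_of_one_le_left (by positivity) h4h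
  have hLK : L ≤ K := hB.trans hKr
  have hNL3 : L ^ 3 ≤ N := by
    calc L ^ 3 = L * L * L := by ring
      _ ≤ K * (4 ^ h * 2 ^ b) * L ^ (2 * C₁ + 20) := by gcongr
      _ ≤ N := hKN
  have hLL3 : L ≤ L ^ 3 := le_self_pow₀ hL1 (by norm_num)
  have hK1 : 1 ≤ K := by
    have : (1 : ℝ) ≤ K := by linarith
    exact_mod_cast this
  have hN1r : (1 : ℝ) ≤ N := by linarith
  have hN1 : 1 ≤ N := by exact_mod_cast hN1r
  have hB1 : 1 ≤ 4 ^ h * 2 ^ b := Nat.one_le_iff_ne_zero.2 (by positivity)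
  have hKX' : K ≤ X := by
    calc K ≤ K * (2 * N * (4 ^ h * 2 ^ b)) := Nat.le_mul_of_pos_right _ (by positivity)
      _ = 2 * K * N * (4 ^ h * 2 ^ b) := by ring
      _ ≤ X := hKX
  have hNX' : N ≤ X := by
    calc N ≤ N * (2 * K * (4 ^ h * 2 ^ b)) := Nat.le_mul_of_pos_right _ (by positivity)
      _ = 2 * K * N * (4 ^ h * 2 ^ b) := by ring
      _ ≤ X := hKX
  have hlogK : Real.log K ≤ L := by
    rw [← hL]
    exact Real.log_le_log (by exact_mod_cast hK1) (by exact_mod_cast hKX')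
  have hlogN : Real.log N ≤ L := by
    rw [← hL]
    exact Real.log_le_log (by exact_mod_cast hN1) (by exact_mod_cast hNX')
  have hlogN0 : 0 < Real.log N := Real.log_pos (by linarith)
  obtain ⟨a, R, hba, haB, hRP, hKR, hcase⟩ :=
    hch L K b h e f hL0 he hf hef hLb hh1 hh2 hK hlogK
  have h2aK : 2 ^ a ≤ K := haB.trans hK
  have haBr : (2 : ℝ) ^ a ≤ 4 ^ h * 2 ^ b := by exact_mod_cast haB
  have h2ba : (2 : ℝ) ^ b ≤ 2 ^ a := pow_le_pow_right₀ (by norm_num) hba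
  have ha3 : 3 ≤ a := MNS_le2 a (by linarith)
  have hKN2 : (K : ℝ) * 2 ^ a * L ^ (2 * C₁ + 20) ≤ N := by
    refine le_trans ?_ hKN
    gcongr
  have hs0 : 0 ≤ √(N : ℝ) := Real.sqrt_nonneg _
  have hss : √(N : ℝ) * √(N : ℝ) = N := Real.mul_self_sqrt (Nat.cast_nonneg N)
  have hs1000 : 1000 ≤ √(N : ℝ) := by
    apply Real.le_sqrt_of_sq_le
    have : (100 : ℝ) ^ 3 ≤ L ^ 3 := pow_le_pow_left₀ (by norm_num) hL100 3
    linarith
  have hy := MNS_y N (by linarith)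
  have hy3 : 3 ≤ Nat.sqrt N / 4 := by
    have : (3 : ℝ) ≤ ((Nat.sqrt N / 4 : ℕ) : ℝ) := by linarith
    exact_mod_cast this
  have hcond : 2 * K * 2 ^ a ≤ (Nat.sqrt N / 4) ^ 3 := by
    have h1 : (2 : ℝ) * K * 2 ^ a ≤ 2 * N := by
      have : (K : ℝ) * 2 ^ a ≤ K * 2 ^ a * L ^ (2 * C₁ + 20) :=
        le_mul_of_one_le_right (by positivity) (hL1.trans hLC)
      linarith
    have h2 : (2 : ℝ) * N ≤ ((Nat.sqrt N / 4 : ℕ) : ℝ) ^ 3 := by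
      have h3 : (√(N : ℝ) / 5) ^ 3 ≤ ((Nat.sqrt N / 4 : ℕ) : ℝ) ^ 3 :=
        pow_le_pow_left₀ (by positivity) (by linarith) 3
      have h4 : (2 : ℝ) * N ≤ (√(N : ℝ) / 5) ^ 3 := by
        have h5 : 0 ≤ √(N : ℝ) * √(N : ℝ) := by positivity
        calc (2 : ℝ) * N = (√(N : ℝ) * √(N : ℝ)) * 2 := by rw [hss]; ring
          _ ≤ (√(N : ℝ) * √(N : ℝ)) * (√(N : ℝ) / 125) := mul_le_mul_of_nonneg_left (by linarith) h5
          _ = (√(N : ℝ) / 5) ^ 3 := by ring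
      linarith
    have h3 : ((2 * K * 2 ^ a : ℕ) : ℝ) ≤ (((Nat.sqrt N / 4) ^ 3 : ℕ) : ℝ) := by
      push_cast
      push_cast at h2
      linarith
    exact_mod_cast h3
  have hKaN : 2 * K * N * 2 ^ a ≤ X := by
    refine le_trans (Nat.mul_le_mul_left _ haB) hKX
  have hD : ∀ m : ℕ, 0 < m → m ≤ 48 * (K * 2 ^ a * N) → #m.primeFactors ≤ Nat.log 2 X + 5 := by
    intro m hm hm2
    apply MNS_pf2 m X hm
    have : 48 * (K * 2 ^ a * N) = 24 * (2 * K * N * 2 ^ a) := by ring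
    omega
  obtain ⟨v, hv⟩ : ∃ v : ℕ, v = ⌈(N : ℝ) / L ^ C₁⌉₊ := ⟨_, rfl⟩
  have hLC1 : (0 : ℝ) < L ^ C₁ := by positivity
  have hlogNC : (0 : ℝ) < Real.log N ^ C₁ := by positivity
  have hlC : Real.log N ^ C₁ ≤ L ^ C₁ := pow_le_pow_left₀ hlogN0.le hlogN C₁
  have hRv : ∀ k ∈ R, v ≤ Set.ncard {n : ℕ | n ≤ N ∧ SpK a (Nat.sqrt N / 4) k n ∧
      ((1 - f) * #(rs (2 ^ a) n) + (1 - e) * #(ws (k * 2 ^ a))) % 2 = 1} := by
    intro k hk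
    apply MNS_one a N k e f (Nat.sqrt N / 4) v he
    · rcases hcase with h0 | ⟨h1, h2, h3⟩
      · exact Or.inl h0
      · exact Or.inr ⟨h1, h2, h3 k hk⟩
    · intro e' he'
      have hkP : k.Prime := by
        have := hRP hk
        unfold PM at this
        exact (mem_filter.1 this).2.1
      have hX1N : X₁ ≤ N := by
        have : (X₁ : ℝ) ≤ N := by linarith
        exact_mod_cast this
      have hc1 : Real.log N ^ C₁ ≤ (2 : ℝ) ^ a := by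
        calc Real.log N ^ C₁ ≤ L ^ C₁ := hlC
          _ ≤ L ^ (2 * C₁ + 20) := pow_le_pow_right₀ hL1 (by omega)
          _ ≤ 2 ^ b := hb
          _ ≤ 2 ^ a := h2ba
      have hc2 : 16 * 4 ^ a ≤ N := by
        have h16 : (16 * 4 ^ a : ℝ) ≤ N := by
          calc (16 * 4 ^ a : ℝ) = 2 ^ a * 2 ^ a * 16 := by
                rw [← mul_pow]; norm_num [mul_comm]
            _ ≤ K * 2 ^ a * L ^ (2 * C₁ + 20) := by
                have h2aKr : (2 : ℝ) ^ a ≤ K := by exact_mod_cast h2aK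
                have : (16 : ℝ) ≤ L ^ (2 * C₁ + 20) := by linarith
                gcongr
            _ ≤ N := hKN2
        exact_mod_cast h16
      have h5 := hLW N a e' k hX1N hc1 hc2 he' hkP
      have h6 : (N : ℝ) / L ^ C₁ ≤ (N : ℝ) / Real.log N ^ C₁ :=
        div_le_div_of_nonneg_left (Nat.cast_nonneg N) hlogNC hlC
      have h7 := h6.trans h5
      have h8 := Nat.ceil_le.2 h7
      rw [hv]
      exact_mod_cast h8
  have hmain := hCNB e f a (Nat.sqrt N / 4) K N (Nat.log 2 X + 5) v R he hf ha3 hy3 hcond hRP hD hRv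
  have hmr : ((#R * v : ℕ) : ℝ) ≤ ((#R * (Nat.sqrt (8 * N + 1) + 1 +
      2 * (Nat.sqrt (2 * K * 2 ^ a) + 1) * (N / (Nat.sqrt N / 4) + 1)) +
      (Nat.log 2 X + 5) * (Nat.sqrt (2 * N) + 1) * sN f (2 * K * (N / 2 ^ a)) +
      2 * (Nat.log 2 X + 5) ^ 2 * (Nat.sqrt (2 * K * 2 ^ a) / 2 ^ (a - 1) + 1) *
        sN e (2 * K * 2 ^ a * N) : ℕ) : ℝ) := by exact_mod_cast hmain
  have hE1 := MNS_exc K a N hK1 (by linarith)
  have hDr := MNS_D X L hL (by linarith)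
  have hr2 := MNS_r2 N hN1
  have ht2 := MNS_t2 K a b hba (by omega) h2aK
  have hF : sN f (2 * K * (N / 2 ^ a)) ≤ sN f Z := by
    apply MNS_mono
    have h1 : 2 * K * (N / 2 ^ a) * 2 ^ b ≤ Z * 2 ^ b := by
      calc 2 * K * (N / 2 ^ a) * 2 ^ b ≤ 2 * K * (N / 2 ^ a) * 2 ^ a :=
            Nat.mul_le_mul_left _ (Nat.pow_le_pow_right (by norm_num) hba)
        _ = 2 * K * (N / 2 ^ a * 2 ^ a) := by ring
        _ ≤ 2 * K * N := Nat.mul_le_mul_left _ (Nat.div_mul_le_self N _)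
        _ ≤ Z * 2 ^ b := hKZ
    exact Nat.le_of_mul_le_mul_right h1 (by positivity)
  have hE : sN e (2 * K * 2 ^ a * N) ≤ sN e X := by
    apply MNS_mono
    calc 2 * K * 2 ^ a * N = 2 * K * N * 2 ^ a := by ring
      _ ≤ X := hKaN
  have hFr : (sN f (2 * K * (N / 2 ^ a)) : ℝ) ≤ sN f Z := by exact_mod_cast hF
  have hEr : (sN e (2 * K * 2 ^ a * N) : ℝ) ≤ sN e X := by exact_mod_cast hE
  have hqv : (#R : ℝ) * ((N : ℝ) / L ^ C₁) ≤ ((#R * v : ℕ) : ℝ) := by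
    push_cast
    apply mul_le_mul_of_nonneg_left _ (Nat.cast_nonneg _)
    rw [hv]
    exact Nat.le_ceil _
  have ht : √((K * 2 ^ a : ℕ) : ℝ) * L ^ (C₁ + 10) ≤ √(N : ℝ) := by
    apply Real.le_sqrt_of_sq_le
    rw [mul_pow, Real.sq_sqrt (Nat.cast_nonneg _), ← pow_mul]
    have : (C₁ + 10) * 2 = 2 * C₁ + 20 := by ring
    rw [this]
    push_cast
    exact hKN2
  refine MNS_end L (√(N : ℝ)) K N #R (√((K * 2 ^ a : ℕ) : ℝ)) (√((K : ℝ) / 2 ^ b)) (sN f Z) (sN e X) C₁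
    hL100 hs0 (Nat.cast_nonneg _) (Real.sqrt_nonneg _) (Nat.cast_nonneg _) (Nat.cast_nonneg _)
    hss.symm hKR ht ?_
  refine (hqv.trans hmr).trans ?_
  have hA : ((#R * (Nat.sqrt (8 * N + 1) + 1 +
      2 * (Nat.sqrt (2 * K * 2 ^ a) + 1) * (N / (Nat.sqrt N / 4) + 1)) +
      (Nat.log 2 X + 5) * (Nat.sqrt (2 * N) + 1) * sN f (2 * K * (N / 2 ^ a)) +
      2 * (Nat.log 2 X + 5) ^ 2 * (Nat.sqrt (2 * K * 2 ^ a) / 2 ^ (a - 1) + 1) *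
        sN e (2 * K * 2 ^ a * N) : ℕ) : ℝ) =
      (#R : ℝ) * ((Nat.sqrt (8 * N + 1) + 1 +
        2 * (Nat.sqrt (2 * K * 2 ^ a) + 1) * (N / (Nat.sqrt N / 4) + 1) : ℕ) : ℝ) +
      ((Nat.log 2 X + 5 : ℕ) : ℝ) * ((Nat.sqrt (2 * N) + 1 : ℕ) : ℝ) *
        (sN f (2 * K * (N / 2 ^ a)) : ℝ) +
      2 * ((Nat.log 2 X + 5 : ℕ) : ℝ) ^ 2 *
        ((Nat.sqrt (2 * K * 2 ^ a) / 2 ^ (a - 1) + 1 : ℕ) : ℝ) *
        (sN e (2 * K * 2 ^ a * N) : ℝ) := by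
    push_cast
    ring
  rw [hA]
  have hD0 : (0 : ℝ) ≤ ((Nat.log 2 X + 5 : ℕ) : ℝ) := Nat.cast_nonneg _
  have hr0 : (0 : ℝ) ≤ ((Nat.sqrt (2 * N) + 1 : ℕ) : ℝ) := Nat.cast_nonneg _
  have ht0 : (0 : ℝ) ≤ ((Nat.sqrt (2 * K * 2 ^ a) / 2 ^ (a - 1) + 1 : ℕ) : ℝ) := Nat.cast_nonneg _
  have hu0 : 0 ≤ √((K : ℝ) / 2 ^ b) := Real.sqrt_nonneg _
  gcongr

end Pool.Agent.TSC
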