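import Pool.Agent.helper67.TSC.Spec

/-!
# Project ts: (MP_ebc808_nt), module NRS

Quadratic residues.
-/

set_option autoImplicit false

open Finset

noncomputable section

namespace Pool.Agent.TSC

open Pool.Agent.EP

theorem NRS_J3 (k : ℕ) (hk : k % 5016 = 1465) : jacobiSym 3 k = 1 := by
  have h1 : jacobiSym ((k : ℕ) : ℤ) 3 = jacobiSym ((3 : ℕ) : ℤ) k :=
    jacobiSym.quadratic_reciprocity_one_mod_four (by omega) (by decide)
  have h2 : jacobiSym ((k : ℕ) : ℤ) 3 = 1 := by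
    rw [jacobiSym.mod_left]
    have h3 : ((k : ℕ) : ℤ) % ((3 : ℕ) : ℤ) = 1 := by push_cast; omega
    rw [h3]
    exact jacobiSym.one_left 3
  have h4 : ((3 : ℕ) : ℤ) = 3 := rfl
  rw [h4] at h1
  rw [← h1, h2]

theorem NRS_J11 (k : ℕ) (hk : k % 5016 = 1465) : jacobiSym 11 k = -1 := by
  have h1 : jacobiSym ((k : ℕ) : ℤ) 11 = jacobiSym ((11 : ℕ) : ℤ) k :=
    jacobiSym.quadratic_reciprocity_one_mod_four (by omega) (by decide)
  have h2 : jacobiSym ((k : ℕ) : ℤ) 11 = -1 := by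
    rw [jacobiSym.mod_left]
    have h3 : ((k : ℕ) : ℤ) % ((11 : ℕ) : ℤ) = 2 := by push_cast; omega
    rw [h3]
    rw [jacobiSym.at_two (by decide)]
    decide
  have h4 : ((11 : ℕ) : ℤ) = 11 := rfl
  rw [h4] at h1
  rw [← h1, h2]

theorem NRS_J19 (k : ℕ) (hk : k % 5016 = 1465) : jacobiSym 19 k = -1 := by
  have h1 : jacobiSym ((k : ℕ) : ℤ) 19 = jacobiSym ((19 : ℕ) : ℤ) k :=
    jacobiSym.quadratic_reciprocity_one_mod_four (by omega) (by decide)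
  have h2 : jacobiSym ((k : ℕ) : ℤ) 19 = -1 := by
    rw [jacobiSym.mod_left]
    have h3 : ((k : ℕ) : ℤ) % ((19 : ℕ) : ℤ) = 2 := by push_cast; omega
    rw [h3]
    rw [jacobiSym.at_two (by decide)]
    decide
  have h4 : ((19 : ℕ) : ℤ) = 19 := rfl
  rw [h4] at h1
  rw [← h1, h2]

theorem NRS_Jr (a k : ℕ) (hk : k % 5016 = 1465) : jacobiSym ((r0 a : ℕ) : ℤ) k = -1 := by
  unfold r0
  split_ifs
  · have h4 : ((19 : ℕ) : ℤ) = 19 := rfl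
    rw [h4]; exact NRS_J19 k hk
  · have h4 : ((11 : ℕ) : ℤ) = 11 := rfl
    rw [h4]; exact NRS_J11 k hk

theorem NRS_one (a y k n : ℕ) (hk : k % 5016 = 1465) (h : SpK a y k n) (u : ℕ)
    (hd : (k : ℤ) ∣ ((24 * n + 3 - 2 ^ a : ℕ) : ℤ) - 3 * (u : ℤ) ^ 2) : False := by
  obtain ⟨p₁, p₂, _, _, _, _, he, hne, hM⟩ := h
  have hM' : 24 * n + 3 - 2 ^ a = r0 a * p₁ * p₂ := by omega
  rw [hM'] at hd
  have h2 : 3 * ((r0 a * p₁ * p₂ : ℕ) : ℤ) % (k : ℤ) = (3 * (u : ℤ)) * (3 * (u : ℤ)) % (k : ℤ) := by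
    apply Int.ModEq.symm
    rw [Int.modEq_iff_dvd]
    have h3 : 3 * ((r0 a * p₁ * p₂ : ℕ) : ℤ) - (3 * (u : ℤ)) * (3 * (u : ℤ)) =
        3 * (((r0 a * p₁ * p₂ : ℕ) : ℤ) - 3 * (u : ℤ) ^ 2) := by ring
    rw [h3]
    exact Dvd.dvd.mul_left hd 3
  have h1 : jacobiSym (3 * ((r0 a * p₁ * p₂ : ℕ) : ℤ)) k =
      jacobiSym ((3 * (u : ℤ)) * (3 * (u : ℤ))) k := by
    rw [jacobiSym.mod_left (3 * ((r0 a * p₁ * p₂ : ℕ) : ℤ)),
      jacobiSym.mod_left ((3 * (u : ℤ)) * (3 * (u : ℤ))), h2]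
  rw [jacobiSym.mul_left, jacobiSym.mul_left (3 * (u : ℤ)), NRS_J3 k hk] at h1
  have h5 : ((r0 a * p₁ * p₂ : ℕ) : ℤ) = ((r0 a : ℕ) : ℤ) * (p₁ : ℤ) * (p₂ : ℤ) := by push_cast; ring
  rw [h5, jacobiSym.mul_left, jacobiSym.mul_left, NRS_Jr a k hk, ← he] at h1
  have h6 : 0 < jacobiSym (p₁ : ℤ) k * jacobiSym (p₁ : ℤ) k := mul_self_pos.2 hne
  nlinarith [mul_self_nonneg (jacobiSym (3 * (u : ℤ)) k)]

theorem NRS_11 : ∀ v w : ZMod 11, v ≠ 0 → 2 * (v * v) ≠ 3 * (w * w) := by decide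

theorem NRS_19 : ∀ v w : ZMod 19, v ≠ 0 → 2 * (2 * (v * v)) ≠ 3 * (w * w) := by decide

theorem NRS_t11 : (2 : ZMod 11) ≠ 0 := by decide

theorem NRS_t19 : (2 : ZMod 19) ≠ 0 := by decide

theorem NRS_two (a k w : ℕ) (hk : k % 5016 = 1465) (hw : 3 * w ^ 2 < k * 2 ^ a)
    (hd : r0 a ∣ k * 2 ^ a - 3 * w ^ 2) : False := by
  by_cases ha : a % 2 = 1
  · have hr : r0 a = 19 := by unfold r0; rw [if_pos ha]
    rw [hr] at hd
    have h1 : ((k * 2 ^ a - 3 * w ^ 2 : ℕ) : ZMod 19) = 0 := (ZMod.natCast_eq_zero_iff _ _).2 hd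
    rw [Nat.cast_sub hw.le] at h1
    push_cast at h1
    have hk2 : (k : ZMod 19) = 2 := by
      have h2 : k % 19 = 2 := by omega
      rw [← ZMod.natCast_mod k 19, h2]; rfl
    rw [hk2] at h1
    obtain ⟨b, hb⟩ : ∃ b, a = 2 * b + 1 := ⟨a / 2, by omega⟩
    subst hb
    have hv : ((2 : ZMod 19) ^ b) ≠ 0 := by
      have hF : Fact (Nat.Prime 19) := ⟨by norm_num⟩
      exact pow_ne_zero _ NRS_t19
    refine NRS_19 (2 ^ b) (w : ZMod 19) hv ?_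
    linear_combination h1
  · have hr : r0 a = 11 := by unfold r0; rw [if_neg ha]
    rw [hr] at hd
    have h1 : ((k * 2 ^ a - 3 * w ^ 2 : ℕ) : ZMod 11) = 0 := (ZMod.natCast_eq_zero_iff _ _).2 hd
    rw [Nat.cast_sub hw.le] at h1
    push_cast at h1
    have hk2 : (k : ZMod 11) = 2 := by
      have h2 : k % 11 = 2 := by omega
      rw [← ZMod.natCast_mod k 11, h2]; rfl
    rw [hk2] at h1
    obtain ⟨b, hb⟩ : ∃ b, a = 2 * b := ⟨a / 2, by omega⟩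
    subst hb
    have hv : ((2 : ZMod 11) ^ b) ≠ 0 := by
      have hF : Fact (Nat.Prime 11) := ⟨by norm_num⟩
      exact pow_ne_zero _ NRS_t11
    refine NRS_11 (2 ^ b) (w : ZMod 11) hv ?_
    linear_combination h1

theorem NRS : NRS_stmt := by
  intro a y k n _ hk
  refine ⟨fun h u hd => NRS_one a y k n hk h u hd, fun w hw hd => ?_⟩
  unfold ws at hw
  rw [mem_filter] at hw
  exact NRS_two a k w hk hw.2.2 hd

end Pool.Agent.TSC
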