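import Pool.Agent.helper67.TSC.Spec
import Pool.Agent.helper83.OD.AllO
import Pool.Agent.helper29.OC.PIAP

/-!
# Project ts: (MP_ebc808_nt), modules PMC and TQ
-/

set_option autoImplicit false

open Finset

noncomputable section

namespace Pool.Agent.TSC

open Pool.Agent.EP

theorem PMC : PMC_stmt := by
  obtain ⟨c, K₀, hc, h⟩ := Pool.Agent.helper7.OC.primes_ap 5016 1465 (by norm_num) (by norm_num)
  refine ⟨c, K₀, hc, fun K hK => ?_⟩
  have h1 := h K hK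
  have hS : ((Ioc K (2 * K)).filter fun p => p.Prime ∧ p % 5016 = 1465 % 5016) = PM K := by
    unfold PM
    apply filter_congr
    intro p _
    norm_num
  rw [hS] at h1
  exact h1

theorem TQ_log (c : ℝ) (hc : 0 < c) :
    ∃ X₀ : ℕ, ∀ X : ℕ, X₀ ≤ X → 1 ≤ c * Real.log X ∧ 1 ≤ Real.log X := by
  have h1 : Filter.Tendsto (fun X : ℕ => Real.log X) Filter.atTop Filter.atTop :=
    Real.tendsto_log_atTop.comp tendsto_natCast_atTop_atTop
  obtain ⟨X₀, h⟩ := Filter.eventually_atTop.1 (h1.eventually_ge_atTop (max 1 (1 / c)))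
  refine ⟨X₀, fun X hX => ?_⟩
  have h2 := h X hX
  have h3 : 1 / c ≤ Real.log X := (le_max_right _ _).trans h2
  refine ⟨?_, (le_max_left _ _).trans h2⟩
  rw [div_le_iff₀ hc] at h3
  linarith [mul_comm c (Real.log X)]

theorem TQ_e (X : ℕ) : sN 0 X = sE X := by
  unfold sN sE
  exact congrArg card (filter_congr fun n _ => by rw [Nat.even_iff])

theorem TQ_o (X : ℕ) : sN 1 X = Pool.Agent.OD.sO X := by
  unfold sN Pool.Agent.OD.sO
  exact congrArg card (filter_congr fun n _ => by rw [Nat.odd_iff])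

theorem TQ_even : ∃ X₀ : ℕ, ∀ X : ℕ, X₀ ≤ X →
    (X : ℝ) ^ (3 / 4 : ℝ) ≤ Real.log X ^ 3 * sE X := by
  obtain ⟨c, hc, X₁, h⟩ := all_RESA
  obtain ⟨X₂, h2⟩ := TQ_log c hc
  refine ⟨max X₁ X₂, fun X hX => ?_⟩
  have hA := h X ((le_max_left _ _).trans hX)
  obtain ⟨hB, hL⟩ := h2 X ((le_max_right _ _).trans hX)
  have hL0 : 0 < Real.log X := by linarith
  have hR : Real.log X ^ (3 / 2 : ℝ) * Real.log X ^ (3 / 2 : ℝ) = Real.log X ^ 3 := by
    rw [← Real.rpow_add hL0, ← Real.rpow_natCast]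
    norm_num
  have hR1 : Real.log X ≤ Real.log X ^ (3 / 2 : ℝ) := by
    have h3 := Real.rpow_le_rpow_of_exponent_le hL (show (1 : ℝ) ≤ 3 / 2 by norm_num)
    rwa [Real.rpow_one] at h3
  have hR0 : 0 < Real.log X ^ (3 / 2 : ℝ) := by positivity
  have hP : 0 ≤ (X : ℝ) ^ (3 / 4 : ℝ) := by positivity
  rw [div_le_iff₀ hR0] at hA
  set P : ℝ := (X : ℝ) ^ (3 / 4 : ℝ)
  set R : ℝ := Real.log X ^ (3 / 2 : ℝ)
  have h4 : 1 ≤ c * R := hB.trans (mul_le_mul_of_nonneg_left hR1 hc.le)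
  calc P ≤ P * (c * R) := le_mul_of_one_le_right hP h4
    _ = (c * P) * R := by ring
    _ ≤ ((sE X : ℝ) * R) * R := mul_le_mul_of_nonneg_right hA hR0.le
    _ = (R * R) * sE X := by ring
    _ = Real.log X ^ 3 * sE X := by rw [hR]

theorem TQ_odd : ∃ X₀ : ℕ, ∀ X : ℕ, X₀ ≤ X →
    (X : ℝ) ^ (3 / 4 : ℝ) ≤ Real.log X ^ 3 * Pool.Agent.OD.sO X := by
  obtain ⟨c, hc, X₁, h⟩ := Pool.Agent.OD.all_FIN
  obtain ⟨X₂, h2⟩ := TQ_log c hc
  refine ⟨max X₁ X₂, fun X hX => ?_⟩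
  have hA := h X ((le_max_left _ _).trans hX)
  obtain ⟨hB, hL⟩ := h2 X ((le_max_right _ _).trans hX)
  have hL0 : 0 < Real.log X := by linarith
  have hP : 0 ≤ (X : ℝ) ^ (3 / 4 : ℝ) := by positivity
  have hL2 : 0 < Real.log X ^ 2 := by positivity
  rw [div_le_iff₀ hL2] at hA
  set P : ℝ := (X : ℝ) ^ (3 / 4 : ℝ)
  calc P ≤ P * (c * Real.log X) := le_mul_of_one_le_right hP hB
    _ = (c * P) * Real.log X := by ring
    _ ≤ ((Pool.Agent.OD.sO X : ℝ) * Real.log X ^ 2) * Real.log X :=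
      mul_le_mul_of_nonneg_right hA hL0.le
    _ = Real.log X ^ 3 * Pool.Agent.OD.sO X := by ring

theorem TQ : TQ_stmt := by
  obtain ⟨X₁, h1⟩ := TQ_even
  obtain ⟨X₂, h2⟩ := TQ_odd
  refine ⟨max X₁ X₂, fun X e hX he => ?_⟩
  obtain rfl | rfl : e = 0 ∨ e = 1 := by omega
  · rw [TQ_e]; exact h1 X ((le_max_left _ _).trans hX)
  · rw [TQ_o]; exact h2 X ((le_max_right _ _).trans hX)

end Pool.Agent.TSC
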